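import Mathlib

/-!
# Large distances: frames, quadrants and the main inequality (MP_78a685_co)
-/

set_option autoImplicit false

namespace Pool.Agent.H34.LM

/-- The Euclidean plane. -/
abbrev E : Type := EuclideanSpace ℝ (Fin 2)

/-- A signed permutation of the two coordinates. -/
abbrev Frame : Type := Bool × Bool × Bool

/-- sign attached to a Boolean -/
def sg (b : Bool) : ℝ := if b then -1 else 1

lemma sg_sq (b : Bool) : sg b * sg b = 1 := by
  cases b <;> norm_num [sg]

/-- first coordinate in the frame `s` -/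
def al (s : Frame) (p : E) : ℝ := sg s.2.1 * (if s.1 then p 1 else p 0)

/-- second coordinate in the frame `s` -/
def be (s : Frame) (p : E) : ℝ := sg s.2.2 * (if s.1 then p 0 else p 1)

lemma al_sq_add_be_sq (s : Frame) (p : E) : al s p ^ 2 + be s p ^ 2 = p 0 ^ 2 + p 1 ^ 2 := by
  obtain ⟨a, b, c⟩ := s
  cases a <;> cases b <;> cases c <;> simp [al, be, sg] <;> ring

lemma al_sub (s : Frame) (p q : E) : al s (p - q) = al s p - al s q := by
  obtain ⟨a, b, c⟩ := s
  cases a <;> simp [al] <;> ring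

lemma be_sub (s : Frame) (p q : E) : be s (p - q) = be s p - be s q := by
  obtain ⟨a, b, c⟩ := s
  cases a <;> simp [be] <;> ring

lemma dist_sq (p q : E) : dist p q ^ 2 = (p 0 - q 0) ^ 2 + (p 1 - q 1) ^ 2 := by
  rw [EuclideanSpace.dist_eq, Real.sq_sqrt (by positivity)]
  simp [Fin.sum_univ_two, Real.dist_eq, sq_abs]

lemma dist_sq_frame (s : Frame) (p q : E) :
    dist p q ^ 2 = (al s p - al s q) ^ 2 + (be s p - be s q) ^ 2 := by
  rw [dist_sq, ← al_sub, ← be_sub, al_sq_add_be_sq]
  simp

/-- Every vector lies in the closed first quadrant of a frame, of either orientation relative to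
another vector. -/
lemma exists_frame (p z : E) : ∃ s : Frame, 0 ≤ al s p ∧ 0 ≤ be s p ∧
    al s p * be s z - be s p * al s z ≤ 0 := by
  by_cases h : p 0 * z 1 - p 1 * z 0 ≤ 0
  · rcases le_total 0 (p 0) with h0 | h0 <;> rcases le_total 0 (p 1) with h1 | h1
    · exact ⟨(false, false, false), by simp [al, be, sg]; exact ⟨h0, h1, by linarith⟩⟩
    · refine ⟨(true, true, false), ?_⟩
      simp [al, be, sg]; exact ⟨h1, h0, by linarith⟩
    · refine ⟨(true, false, true), ?_⟩
      simp [al, be, sg]; exact ⟨h1, h0, by linarith⟩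
    · refine ⟨(false, true, true), ?_⟩
      simp [al, be, sg]; exact ⟨h0, h1, by linarith⟩
  · push Not at h
    rcases le_total 0 (p 0) with h0 | h0 <;> rcases le_total 0 (p 1) with h1 | h1
    · refine ⟨(true, false, false), ?_⟩
      simp [al, be, sg]; exact ⟨h1, h0, by linarith⟩
    · refine ⟨(false, false, true), ?_⟩
      simp [al, be, sg]; exact ⟨h0, h1, by linarith⟩
    · refine ⟨(false, true, false), ?_⟩
      simp [al, be, sg]; exact ⟨h0, h1, by linarith⟩
    · refine ⟨(true, true, true), ?_⟩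
      simp [al, be, sg]; exact ⟨h1, h0, by linarith⟩

/-- The main inequality. -/
lemma key_ineq {a b a1 b1 a2 b2 d z1 z2 : ℝ} (hU : a ^ 2 + b ^ 2 = d ^ 2)
    (hX : a1 ^ 2 + b1 ^ 2 = d ^ 2) (hY : a2 ^ 2 + b2 ^ 2 = d ^ 2)
    (ha : 0 ≤ a) (hb : 0 ≤ b) (ha1 : 0 ≤ a1) (ha2 : 0 ≤ a2)
    (h1 : b ≤ b1) (h2 : b1 < b2) (hZ : (z1 - a) ^ 2 + (z2 - b) ^ 2 = d ^ 2)
    (hZ0 : 0 < z1 ^ 2 + z2 ^ 2) (hc : a * z2 - b * z1 ≤ 0) :
    z1 * (a2 - a1) + z2 * (b2 - b1) < 0 := by
  have hd : 0 < d ^ 2 := by nlinarith [sq_nonneg a2, sq_nonneg b2]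
  have e1 : a2 < a1 := by nlinarith
  have e2 : a1 ≤ a := by nlinarith
  have hUZ : 0 < a * z1 + b * z2 := by nlinarith
  have ha0 : 0 < a := lt_of_le_of_lt ha2 (lt_of_lt_of_le e1 e2)
  have hUD : a * (a2 - a1) + b * (b2 - b1) < 0 := by
    have hs : 0 < a1 + a2 := by linarith
    have k1 : (a1 - a2) * (a1 + a2) = (b2 - b1) * (b1 + b2) := by nlinarith
    have k2 : b * (a1 + a2) < a * (b1 + b2) := by
      have : b * (a1 + a2) ≤ b * (2 * a) := by
        apply mul_le_mul_of_nonneg_left _ hb
        linarith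
      have : a * (2 * b) < a * (b1 + b2) := by
        apply mul_lt_mul_of_pos_left _ ha0
        linarith
      nlinarith
    have k3 : (a * (a2 - a1) + b * (b2 - b1)) * (a1 + a2) < 0 := by
      have : (a * (a2 - a1) + b * (b2 - b1)) * (a1 + a2)
          = (b2 - b1) * (b * (a1 + a2) - a * (b1 + b2)) := by
        have : a * (a1 - a2) * (a1 + a2) = a * ((b2 - b1) * (b1 + b2)) := by
          rw [mul_assoc, k1]
        nlinarith
      rw [this]
      exact mul_neg_of_pos_of_neg (by linarith) (by linarith)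
    by_contra hcon
    push Not at hcon
    have := mul_nonneg hcon hs.le
    linarith
  have hCD : 0 ≤ a * (b2 - b1) - b * (a2 - a1) := by
    have := mul_nonneg ha (by linarith : 0 ≤ b2 - b1)
    have := mul_nonneg hb (by linarith : 0 ≤ a1 - a2)
    linarith
  have hid : d ^ 2 * (z1 * (a2 - a1) + z2 * (b2 - b1))
      = (a * z1 + b * z2) * (a * (a2 - a1) + b * (b2 - b1))
        + (a * z2 - b * z1) * (a * (b2 - b1) - b * (a2 - a1)) := by
    rw [← hU]; ring
  have hneg : d ^ 2 * (z1 * (a2 - a1) + z2 * (b2 - b1)) < 0 := by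
    rw [hid]
    have t1 := mul_neg_of_pos_of_neg hUZ hUD
    have t2 := mul_nonpos_of_nonpos_of_nonneg hc hCD
    linarith
  by_contra hcon
  push Not at hcon
  have := mul_nonneg hd.le hcon
  linarith

/-- Distances to `w` increase strictly with the second coordinate of the frame. -/
lemma dist_mono {s : Frame} {v u w x y : E} {d : ℝ} (hu : dist u v = d) (hx : dist x v = d)
    (hy : dist y v = d) (hw : dist w u = d) (hwv : w ≠ v)
    (hau : 0 ≤ al s (u - v)) (hbu : 0 ≤ be s (u - v)) (hax : 0 ≤ al s (x - v))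
    (hay : 0 ≤ al s (y - v)) (h1 : be s (u - v) ≤ be s (x - v))
    (h2 : be s (x - v) < be s (y - v))
    (hc : al s (u - v) * be s (w - v) - be s (u - v) * al s (w - v) ≤ 0) :
    dist x w < dist y w := by
  have n : ∀ p q : E, dist p q ^ 2 = al s (p - q) ^ 2 + be s (p - q) ^ 2 := by
    intro p q
    rw [dist_sq_frame s, al_sub, be_sub]
  have hZ0 : 0 < al s (w - v) ^ 2 + be s (w - v) ^ 2 := by
    rw [← n]
    have : 0 < dist w v := dist_pos.mpr hwv
    positivity
  have hZ : (al s (w - v) - al s (u - v)) ^ 2 + (be s (w - v) - be s (u - v)) ^ 2 = d ^ 2 := by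
    rw [← hw, n w u]
    simp only [al_sub, be_sub]
    ring
  have key := key_ineq (a := al s (u - v)) (b := be s (u - v)) (a1 := al s (x - v))
    (b1 := be s (x - v)) (a2 := al s (y - v)) (b2 := be s (y - v)) (d := d)
    (z1 := al s (w - v)) (z2 := be s (w - v)) (by rw [← n, hu]) (by rw [← n, hx])
    (by rw [← n, hy]) hau hbu hax hay h1 h2 hZ hZ0 hc
  have ex : dist x w ^ 2 = d ^ 2 - 2 * (al s (w - v) * al s (x - v) + be s (w - v) * be s (x - v))
      + (al s (w - v) ^ 2 + be s (w - v) ^ 2) := by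
    rw [n x w, ← hx, n x v]
    simp only [al_sub, be_sub]
    ring
  have ey : dist y w ^ 2 = d ^ 2 - 2 * (al s (w - v) * al s (y - v) + be s (w - v) * be s (y - v))
      + (al s (w - v) ^ 2 + be s (w - v) ^ 2) := by
    rw [n y w, ← hy, n y v]
    simp only [al_sub, be_sub]
    ring
  have : dist x w ^ 2 < dist y w ^ 2 := by
    rw [ex, ey]; nlinarith
  exact lt_of_pow_lt_pow_left₀ 2 dist_nonneg this

/-- On a circle about `v`, in the closed first quadrant, the second coordinate determines the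
point. -/
lemma be_inj {s : Frame} {v x y : E} {d : ℝ} (hx : dist x v = d) (hy : dist y v = d)
    (hax : 0 ≤ al s (x - v)) (hay : 0 ≤ al s (y - v))
    (h : be s (x - v) = be s (y - v)) : x = y := by
  have n : ∀ p q : E, dist p q ^ 2 = al s (p - q) ^ 2 + be s (p - q) ^ 2 := by
    intro p q
    rw [dist_sq_frame s, al_sub, be_sub]
  have e1 : al s (x - v) ^ 2 = al s (y - v) ^ 2 := by
    have h1 := n x v
    have h2 := n y v
    rw [hx] at h1
    rw [hy] at h2
    rw [h] at h1
    linarith
  have e2 : al s (x - v) = al s (y - v) := by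
    exact (pow_left_inj₀ hax hay two_ne_zero).mp e1
  have e3 : dist x y ^ 2 = 0 := by
    rw [n x y]
    simp only [al_sub, be_sub] at *
    have a1 : al s x - al s y = 0 := by linarith
    have a2 : be s x - be s y = 0 := by linarith
    rw [a1, a2]; ring
  exact dist_eq_zero.mp (pow_eq_zero_iff two_ne_zero |>.mp e3)

end Pool.Agent.H34.LM
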