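import Mathlib
import Pool.Agent.H34.LM.Geo

/-!
# The graph of one large distance (MP_78a685_co)
-/

set_option autoImplicit false

namespace Pool.Agent.H34.LM

open Finset
open scoped Classical

/-- Among the elements of `S` at most `j` have fewer than `j` elements of `S` above them. -/
lemma card_top_le {α : Type*} (S : Finset α) (f : α → ℝ) (hf : Set.InjOn f S) (j : ℕ) :
    (S.filter (fun u => (S.filter (fun x => f u < f x)).card < j)).card ≤ j := by
  by_contra hcon
  push Not at hcon
  set T := S.filter (fun u => (S.filter (fun x => f u < f x)).card < j) with hT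
  have hne : T.Nonempty := by
    rw [← Finset.card_pos]; omega
  obtain ⟨u, huT, hmin⟩ := T.exists_min_image f hne
  have huS : u ∈ S := (Finset.mem_filter.mp huT).1
  have hsub : T.erase u ⊆ S.filter (fun x => f u < f x) := by
    intro x hx
    rw [Finset.mem_erase] at hx
    have hxS : x ∈ S := (Finset.mem_filter.mp hx.2).1
    refine Finset.mem_filter.mpr ⟨hxS, lt_of_le_of_ne (hmin x hx.2) ?_⟩
    intro h
    exact hx.1 (hf (by exact_mod_cast hxS) (by exact_mod_cast huS) h.symm)
  have h1 := Finset.card_le_card hsub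
  rw [Finset.card_erase_of_mem huT] at h1
  have h2 := (Finset.mem_filter.mp huT).2
  omega

/-- the distances determined by `A` -/
noncomputable def Ds (A : Finset E) : Finset ℝ := A.offDiag.image (fun p => dist p.1 p.2)

lemma mem_Ds {A : Finset E} {x y : E} (hx : x ∈ A) (hy : y ∈ A) (h : 0 < dist x y) :
    dist x y ∈ Ds A := by
  refine Finset.mem_image.mpr ⟨(x, y), ?_, rfl⟩
  rw [Finset.mem_offDiag]
  exact ⟨hx, hy, dist_pos.mp h⟩

/-- neighbours of `v` at distance `d` -/
noncomputable def Nb (A : Finset E) (d : ℝ) (v : E) : Finset E := A.filter (fun u => dist u v = d)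

/-- neighbours in the closed first quadrant of the frame `s` -/
noncomputable def NS (A : Finset E) (d : ℝ) (s : Frame) (v : E) : Finset E :=
  (Nb A d v).filter (fun u => 0 ≤ al s (u - v) ∧ 0 ≤ be s (u - v))

/-- the last `j` neighbours in the quadrant -/
noncomputable def BS (A : Finset E) (d : ℝ) (j : ℕ) (s : Frame) (v : E) : Finset E :=
  (NS A d s v).filter
    (fun u => ((NS A d s v).filter (fun x => be s (u - v) < be s (x - v))).card < j)

lemma mem_NS {A : Finset E} {d : ℝ} {s : Frame} {v x : E} :
    x ∈ NS A d s v ↔ (x ∈ A ∧ dist x v = d) ∧ 0 ≤ al s (x - v) ∧ 0 ≤ be s (x - v) := by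
  simp [NS, Nb]

lemma card_BS_le (A : Finset E) (d : ℝ) (j : ℕ) (s : Frame) (v : E) :
    (BS A d j s v).card ≤ j := by
  apply card_top_le (NS A d s v) (fun x => be s (x - v))
  intro x hx y hy h
  rw [Finset.mem_coe, mem_NS] at hx hy
  exact be_inj hx.1.2 hy.1.2 hx.2.1 hy.2.1 h

/-- If `u` is a neighbour of `v` that is not among the last `j` in any quadrant (for either
orientation) and fewer than `j` distances exceed `d`, then `v` is the only neighbour of `u`. -/
lemma eq_of_not_good {A : Finset E} {d : ℝ} (hd : 0 ≤ d) {j : ℕ}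
    (hj : ((Ds A).filter (fun t => d < t)).card < j) {v u w : E} (hu : u ∈ A)
    (huv : dist u v = d) (hbad : ∀ s : Frame, u ∉ BS A d j s v) (hw : w ∈ A)
    (hwu : dist w u = d) : w = v := by
  by_contra hwv
  obtain ⟨s, h1, h2, h3⟩ := exists_frame (u - v) (w - v)
  have huN : u ∈ NS A d s v := mem_NS.mpr ⟨⟨hu, huv⟩, h1, h2⟩
  have hcard : j ≤ ((NS A d s v).filter (fun x => be s (u - v) < be s (x - v))).card := by
    by_contra hcon
    push Not at hcon
    exact hbad s (Finset.mem_filter.mpr ⟨huN, hcon⟩)
  set X := (NS A d s v).filter (fun x => be s (u - v) < be s (x - v)) with hX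
  have hXm : ∀ x ∈ X, (x ∈ A ∧ dist x v = d) ∧ (0 ≤ al s (x - v) ∧ 0 ≤ be s (x - v)) ∧
      be s (u - v) < be s (x - v) := by
    intro x hx
    rw [hX, Finset.mem_filter, mem_NS] at hx
    exact ⟨hx.1.1, hx.1.2, hx.2⟩
  have hlt : ∀ x ∈ X, d < dist x w := by
    intro x hx
    have hx' := hXm x hx
    have := dist_mono (x := u) (y := x) huv huv hx'.1.2 hwu hwv h1 h2 h1 hx'.2.1.1 le_rfl
      hx'.2.2 h3
    rw [dist_comm u w, hwu] at this
    exact this
  have hinj : Set.InjOn (fun x => dist x w) (X : Set E) := by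
    intro x hx y hy hxy
    rw [Finset.mem_coe] at hx hy
    have hx' := hXm x hx
    have hy' := hXm y hy
    have hxy' : dist x w = dist y w := hxy
    rcases lt_trichotomy (be s (x - v)) (be s (y - v)) with h | h | h
    · have := dist_mono (x := x) (y := y) huv hx'.1.2 hy'.1.2 hwu hwv h1 h2 hx'.2.1.1
        hy'.2.1.1 hx'.2.2.le h h3
      exact absurd hxy' (ne_of_lt this)
    · exact be_inj hx'.1.2 hy'.1.2 hx'.2.1.1 hy'.2.1.1 h
    · have := dist_mono (x := y) (y := x) huv hy'.1.2 hx'.1.2 hwu hwv h1 h2 hy'.2.1.1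
        hx'.2.1.1 hy'.2.2.le h h3
      exact absurd hxy' (ne_of_gt this)
  have hsub : X.image (fun x => dist x w) ⊆ (Ds A).filter (fun t => d < t) := by
    intro t ht
    obtain ⟨x, hx, rfl⟩ := Finset.mem_image.mp ht
    refine Finset.mem_filter.mpr ⟨mem_Ds (hXm x hx).1.1 hw ?_, hlt x hx⟩
    exact lt_of_le_of_lt hd (hlt x hx)
  have := Finset.card_le_card hsub
  rw [Finset.card_image_of_injOn hinj] at this
  omega

/-- The number of (ordered) pairs at distance `d` is at most `16 j |V|` if fewer than `j`
distances exceed `d` and `V` contains all points that are involved. -/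
lemma mult_le {A V : Finset E} {d : ℝ} (hd : 0 ≤ d) {j : ℕ}
    (hj : ((Ds A).filter (fun t => d < t)).card < j)
    (hV : ∀ v ∈ A, ∀ w ∈ A, v ≠ w → dist v w = d → v ∈ V) :
    (A.offDiag.filter (fun p => dist p.1 p.2 = d)).card ≤ 16 * j * V.card := by
  set P := A.offDiag.filter (fun p => dist p.1 p.2 = d) with hP
  set G : Finset (E × E) := V.biUnion (fun v => (Finset.univ : Finset Frame).biUnion
    (fun s => (BS A d j s v).image (fun u => (v, u)))) with hG
  have hGcard : G.card ≤ 8 * j * V.card := by
    calc G.card ≤ ∑ v ∈ V, ((Finset.univ : Finset Frame).biUnion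
          (fun s => (BS A d j s v).image (fun u => (v, u)))).card := Finset.card_biUnion_le
      _ ≤ ∑ v ∈ V, 8 * j := by
          apply Finset.sum_le_sum
          intro v _
          calc ((Finset.univ : Finset Frame).biUnion
              (fun s => (BS A d j s v).image (fun u => (v, u)))).card
              ≤ ∑ s : Frame, ((BS A d j s v).image (fun u => (v, u))).card :=
                Finset.card_biUnion_le
            _ ≤ ∑ s : Frame, j := Finset.sum_le_sum
                (fun s _ => Finset.card_image_le.trans (card_BS_le A d j s v))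
            _ = 8 * j := by simp [Fintype.card_prod]
      _ = 8 * j * V.card := by rw [Finset.sum_const, smul_eq_mul]; ring
  have hsub : P ⊆ G ∪ G.image Prod.swap := by
    intro p hp
    obtain ⟨v, u⟩ := p
    rw [hP, Finset.mem_filter, Finset.mem_offDiag] at hp
    obtain ⟨⟨hvA, huA, hne⟩, hdist⟩ := hp
    simp only at hvA huA hne hdist
    have hvV : v ∈ V := hV v hvA u huA hne hdist
    have huV : u ∈ V := hV u huA v hvA hne.symm (by rw [dist_comm]; exact hdist)
    by_cases hgood : ∃ s : Frame, u ∈ BS A d j s v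
    · obtain ⟨s, hs⟩ := hgood
      apply Finset.mem_union_left
      rw [hG, Finset.mem_biUnion]
      refine ⟨v, hvV, Finset.mem_biUnion.mpr ⟨s, Finset.mem_univ _, ?_⟩⟩
      exact Finset.mem_image.mpr ⟨u, hs, rfl⟩
    · push Not at hgood
      have honly : ∀ w ∈ A, dist w u = d → w = v := by
        intro w hw hwu
        exact eq_of_not_good hd hj huA (by rw [dist_comm]; exact hdist) hgood hw hwu
      obtain ⟨s, h1, h2, -⟩ := exists_frame (v - u) 0
      have hvN : v ∈ NS A d s u := mem_NS.mpr ⟨⟨hvA, hdist⟩, h1, h2⟩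
      have hvB : v ∈ BS A d j s u := by
        refine Finset.mem_filter.mpr ⟨hvN, ?_⟩
        have : (NS A d s u).filter (fun x => be s (v - u) < be s (x - u)) = ∅ := by
          apply Finset.filter_eq_empty_iff.mpr
          intro x hx
          rw [mem_NS] at hx
          rw [honly x hx.1.1 hx.1.2]
          exact lt_irrefl _
        rw [this]
        simp only [Finset.card_empty]
        omega
      apply Finset.mem_union_right
      refine Finset.mem_image.mpr ⟨(u, v), ?_, rfl⟩
      rw [hG, Finset.mem_biUnion]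
      refine ⟨u, huV, Finset.mem_biUnion.mpr ⟨s, Finset.mem_univ _, ?_⟩⟩
      exact Finset.mem_image.mpr ⟨v, hvB, rfl⟩
  calc P.card ≤ (G ∪ G.image Prod.swap).card := Finset.card_le_card hsub
    _ ≤ G.card + (G.image Prod.swap).card := Finset.card_union_le _ _
    _ ≤ G.card + G.card := Nat.add_le_add_left Finset.card_image_le _
    _ ≤ 8 * j * V.card + 8 * j * V.card := Nat.add_le_add hGcard hGcard
    _ = 16 * j * V.card := by ring

end Pool.Agent.H34.LM
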