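import Mathlib
import Pool.Agent.H34.LM.Graph

/-!
# Peeling and the K largest distances (MP_78a685_co)
-/

set_option autoImplicit false

namespace Pool.Agent.H34.LM

open Finset
open scoped Classical

/-- One step of peeling by farthest points: the points of `B` that are not a farthest point of
`B` from any point of `A` remain. -/
noncomputable def farPeel (A B : Finset E) : Finset E :=
  B.filter (fun x => ∀ w ∈ A, ∃ y ∈ B, dist x w < dist y w)

/-- One step of convex peeling: the points of `B` in the convex hull of the others remain. -/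
noncomputable def hullPeel (B : Finset E) : Finset E :=
  B.filter (fun x => x ∈ convexHull ℝ ((B : Set E) \ {x}))

lemma hullPeel_far {B : Finset E} {v : E} (hv : v ∈ hullPeel B) (w : E) :
    ∃ x ∈ B, dist v w < dist x w := by
  by_contra hcon
  push Not at hcon
  have hv' := (Finset.mem_filter.mp hv).2
  have hlin : IsLinearMap ℝ (fun x : E => inner ℝ (v - w) x) :=
    (innerSL ℝ (v - w)).toLinearMap.isLinear
  have hconv := convex_halfSpace_lt hlin (dist v w ^ 2 + inner ℝ (v - w) w)
  have hsub : ((B : Set E) \ {v}) ⊆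
      {x : E | inner ℝ (v - w) x < dist v w ^ 2 + inner ℝ (v - w) w} := by
    intro x hx
    obtain ⟨hxB, hxv⟩ := hx
    have h1 := hcon x (by exact_mod_cast hxB)
    have hne : 0 < dist x v := dist_pos.mpr hxv
    have e1 : dist x v ^ 2 = dist x w ^ 2 - 2 * inner ℝ (v - w) (x - w) + dist v w ^ 2 := by
      have : x - v = (x - w) - (v - w) := by abel
      rw [dist_eq_norm x v, this, @norm_sub_sq_real, dist_eq_norm x w, dist_eq_norm v w,
        real_inner_comm]
    have h3 : dist x w ^ 2 ≤ dist v w ^ 2 := by
      have := dist_nonneg (x := x) (y := w)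
      nlinarith
    have h4 : 0 < dist x v ^ 2 := by positivity
    have h5 : inner ℝ (v - w) (x - w) = inner ℝ (v - w) x - inner ℝ (v - w) w := by
      rw [inner_sub_right]
    show inner ℝ (v - w) x < dist v w ^ 2 + inner ℝ (v - w) w
    rw [h5] at e1
    linarith
  have hmem := (convexHull_min hsub hconv) hv'
  have h6 : inner ℝ (v - w) v < dist v w ^ 2 + inner ℝ (v - w) w := hmem
  have h7 : dist v w ^ 2 = inner ℝ (v - w) v - inner ℝ (v - w) w := by
    rw [← inner_sub_right, dist_eq_norm, real_inner_self_eq_norm_sq]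
  linarith

lemma iterate_sub {f : Finset E → Finset E} (hf : ∀ B, f B ⊆ B) (A : Finset E) (i : ℕ) :
    f^[i] A ⊆ A := by
  induction i with
  | zero => simp
  | succ i ih =>
    rw [Function.iterate_succ_apply']
    exact (hf _).trans ih

lemma farPeel_sub (A B : Finset E) : farPeel A B ⊆ B := Finset.filter_subset _ _

lemma hullPeel_sub (B : Finset E) : hullPeel B ⊆ B := Finset.filter_subset _ _

lemma hull_sub_far (A : Finset E) (i : ℕ) : hullPeel^[i] A ⊆ (farPeel A)^[i] A := by
  induction i with
  | zero => simp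
  | succ i ih =>
    intro x hx
    rw [Function.iterate_succ_apply'] at hx ⊢
    have hx1 := hullPeel_sub _ hx
    refine Finset.mem_filter.mpr ⟨ih hx1, fun w _ => ?_⟩
    obtain ⟨y, hy, hlt⟩ := hullPeel_far hx w
    exact ⟨y, ih hy, hlt⟩

/-- A point that survives `i` steps has at least `i` distances above each of its distances. -/
lemma far_levels (A : Finset E) (i : ℕ) : ∀ v ∈ (farPeel A)^[i] A, ∀ w ∈ A,
    i ≤ ((Ds A).filter (fun t => dist v w < t)).card := by
  induction i with
  | zero => intro v _ w _; exact Nat.zero_le _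
  | succ i ih =>
    intro v hv w hw
    rw [Function.iterate_succ_apply'] at hv
    obtain ⟨x, hx, hlt⟩ := (Finset.mem_filter.mp hv).2 w hw
    have hxA : x ∈ A := iterate_sub (farPeel_sub A) A i hx
    have h1 := ih x hx w hw
    have hmem : dist x w ∈ Ds A := mem_Ds hxA hw (lt_of_le_of_lt dist_nonneg hlt)
    have hsub : insert (dist x w) ((Ds A).filter (fun t => dist x w < t))
        ⊆ (Ds A).filter (fun t => dist v w < t) := by
      intro t ht
      rcases Finset.mem_insert.mp ht with rfl | ht
      · exact Finset.mem_filter.mpr ⟨hmem, hlt⟩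
      · obtain ⟨h2, h3⟩ := Finset.mem_filter.mp ht
        exact Finset.mem_filter.mpr ⟨h2, hlt.trans h3⟩
    have h4 := Finset.card_le_card hsub
    rw [Finset.card_insert_of_notMem (by simp)] at h4
    omega

/-- At least `K` elements of a set of at least `K` reals have fewer than `K` elements above. -/
lemma card_top_ge (S : Finset ℝ) (K : ℕ) (hK : K ≤ S.card) :
    K ≤ (S.filter (fun d => (S.filter (fun t => d < t)).card < K)).card := by
  by_contra hcon
  push Not at hcon
  set T := S.filter (fun d => (S.filter (fun t => d < t)).card < K) with hT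
  have hTS : T ⊆ S := Finset.filter_subset _ _
  have hne : (S \ T).Nonempty := by
    rw [← Finset.card_pos, Finset.card_sdiff_of_subset hTS]
    omega
  obtain ⟨m, hm, hmax⟩ := (S \ T).exists_max_image id hne
  obtain ⟨hmS, hmT⟩ := Finset.mem_sdiff.mp hm
  apply hmT
  refine Finset.mem_filter.mpr ⟨hmS, lt_of_le_of_lt (Finset.card_le_card ?_) hcon⟩
  intro t ht
  obtain ⟨htS, hlt⟩ := Finset.mem_filter.mp ht
  by_contra htT
  have := hmax t (Finset.mem_sdiff.mpr ⟨htS, htT⟩)
  simp only [id] at this
  linarith

/-- The main theorem: if the first `K` farthest-point layers of `A` contain at most `|A| / (8 K)`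
points, then the `K` largest distances are of low multiplicity. -/
theorem low_of_far (A : Finset E) (hA : A.Nonempty) (K : ℕ)
    (h : 8 * K * (A \ (farPeel A)^[K] A).card ≤ A.card) :
    K ≤ ((A.offDiag.image (fun p => dist p.1 p.2)).filter
      (fun d => (A.offDiag.filter (fun p => dist p.1 p.2 = d)).card ≤ 2 * A.card)).card := by
  rcases Nat.eq_zero_or_pos K with rfl | hK
  · exact Nat.zero_le _
  have hn : 0 < A.card := Finset.card_pos.mpr hA
  have hD : K ≤ (Ds A).card := by
    by_contra hcon
    push Not at hcon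
    have hempty : (farPeel A)^[K] A = ∅ := by
      apply Finset.eq_empty_of_forall_notMem
      intro v hv
      have hvA := iterate_sub (farPeel_sub A) A K hv
      have h1 := far_levels A K v hv v hvA
      have h2 : ((Ds A).filter (fun t => dist v v < t)).card ≤ (Ds A).card :=
        Finset.card_filter_le _ _
      omega
    rw [hempty, Finset.sdiff_empty] at h
    nlinarith
  refine (card_top_ge (Ds A) K hD).trans (Finset.card_le_card ?_)
  intro d hd
  obtain ⟨hdD, hdK⟩ := Finset.mem_filter.mp hd
  refine Finset.mem_filter.mpr ⟨hdD, ?_⟩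
  have hd0 : 0 ≤ d := by
    obtain ⟨p, -, rfl⟩ := Finset.mem_image.mp hdD
    exact dist_nonneg
  have hV : ∀ v ∈ A, ∀ w ∈ A, v ≠ w → dist v w = d → v ∈ A \ (farPeel A)^[K] A := by
    intro v hv w hw _ hvw
    refine Finset.mem_sdiff.mpr ⟨hv, fun hv' => ?_⟩
    have := far_levels A K v hv' w hw
    rw [hvw] at this
    omega
  have := mult_le hd0 hdK hV
  calc (A.offDiag.filter (fun p => dist p.1 p.2 = d)).card
      ≤ 16 * K * (A \ (farPeel A)^[K] A).card := this
    _ = 2 * (8 * K * (A \ (farPeel A)^[K] A).card) := by ring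
    _ ≤ 2 * A.card := Nat.mul_le_mul_left 2 h

/-- The version with convex layers. -/
theorem low_of_hull (A : Finset E) (hA : A.Nonempty) (K : ℕ)
    (h : 8 * K * (A \ hullPeel^[K] A).card ≤ A.card) :
    K ≤ ((A.offDiag.image (fun p => dist p.1 p.2)).filter
      (fun d => (A.offDiag.filter (fun p => dist p.1 p.2 = d)).card ≤ 2 * A.card)).card := by
  apply low_of_far A hA K
  refine le_trans (Nat.mul_le_mul_left _ (Finset.card_le_card ?_)) h
  exact Finset.sdiff_subset_sdiff (Finset.Subset.refl _) (hull_sub_far A K)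

lemma layers_card (A : Finset E) (c : ℕ)
    (hc : ∀ V : Finset E, V ⊆ A → (∀ x ∈ V, x ∉ convexHull ℝ ((V : Set E) \ {x})) →
      V.card ≤ c) (i : ℕ) : (A \ hullPeel^[i] A).card ≤ i * c := by
  induction i with
  | zero => simp
  | succ i ih =>
    set B := hullPeel^[i] A with hB
    have hBA : B ⊆ A := iterate_sub hullPeel_sub A i
    have hstep : hullPeel^[i + 1] A = hullPeel B := by
      rw [Function.iterate_succ_apply']
    rw [hstep]
    have hV : (B \ hullPeel B).card ≤ c := by
      apply hc _ (Finset.sdiff_subset.trans hBA)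
      intro x hx hcon
      obtain ⟨hxB, hxn⟩ := Finset.mem_sdiff.mp hx
      apply hxn
      refine Finset.mem_filter.mpr ⟨hxB, ?_⟩
      refine convexHull_mono ?_ hcon
      intro y hy
      exact ⟨by exact_mod_cast (Finset.mem_sdiff.mp (by exact_mod_cast hy.1)).1, hy.2⟩
    have hsub : A \ hullPeel B ⊆ (A \ B) ∪ (B \ hullPeel B) := by
      intro x hx
      obtain ⟨hxA, hxn⟩ := Finset.mem_sdiff.mp hx
      by_cases hxB : x ∈ B
      · exact Finset.mem_union_right _ (Finset.mem_sdiff.mpr ⟨hxB, hxn⟩)
      · exact Finset.mem_union_left _ (Finset.mem_sdiff.mpr ⟨hxA, hxB⟩)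
    calc (A \ hullPeel B).card ≤ ((A \ B) ∪ (B \ hullPeel B)).card := Finset.card_le_card hsub
      _ ≤ (A \ B).card + (B \ hullPeel B).card := Finset.card_union_le _ _
      _ ≤ i * c + c := Nat.add_le_add ih hV
      _ = (i + 1) * c := by ring

/-- The version with the largest subset in convex position. -/
theorem low_of_convex (A : Finset E) (hA : A.Nonempty) (K c : ℕ)
    (hc : ∀ V : Finset E, V ⊆ A → (∀ x ∈ V, x ∉ convexHull ℝ ((V : Set E) \ {x})) →
      V.card ≤ c) (h : 8 * K ^ 2 * c ≤ A.card) :
    K ≤ ((A.offDiag.image (fun p => dist p.1 p.2)).filter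
      (fun d => (A.offDiag.filter (fun p => dist p.1 p.2 = d)).card ≤ 2 * A.card)).card := by
  apply low_of_hull A hA K
  calc 8 * K * (A \ hullPeel^[K] A).card ≤ 8 * K * (K * c) :=
        Nat.mul_le_mul_left _ (layers_card A c hc K)
    _ = 8 * K ^ 2 * c := by ring
    _ ≤ A.card := h

end Pool.Agent.H34.LM
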